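import Mathlib

namespace Pool.Agent.P.MP_838999_co

open Finset

/-- Sampling: finitely many bounded functions of negative mean have negative sums along one short
list of sample points. -/
theorem sampling {Ω V : Type} [Fintype Ω] [Nonempty Ω] (S : Finset V) (Y : V → Ω → ℝ) (ε : ℝ)
    (hε0 : 0 ≤ ε) (hε : ε ≤ 4) (hb : ∀ v ∈ S, ∀ ω, |Y v ω| ≤ 2)
    (hm : ∀ v ∈ S, ∑ ω, Y v ω ≤ -ε * Fintype.card Ω) (T : ℕ)
    (hT : S.card * Real.exp (-(T * ε ^ 2 / 16)) < 1) :
    ∃ ω : Fin T → Ω, ∀ v ∈ S, ∑ i, Y v (ω i) < 0 := by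
  classical
  by_contra hcon
  push Not at hcon
  set N : ℝ := (Fintype.card Ω : ℝ) with hN
  have hNpos : 0 < N := by rw [hN]; exact_mod_cast Fintype.card_pos
  have hone : ∀ ω : Fin T → Ω, (1 : ℝ) ≤ ∑ v ∈ S, ∏ i, Real.exp (ε / 8 * Y v (ω i)) := by
    intro ω
    obtain ⟨v, hv, h0⟩ := hcon ω
    calc (1 : ℝ) ≤ ∏ i, Real.exp (ε / 8 * Y v (ω i)) := by
          rw [← Real.exp_sum, ← Finset.mul_sum]
          exact Real.one_le_exp (mul_nonneg (by linarith) h0)
      _ ≤ _ := Finset.single_le_sum (f := fun v => ∏ i, Real.exp (ε / 8 * Y v (ω i)))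
          (fun v _ => Finset.prod_nonneg fun i _ => (Real.exp_pos _).le) hv
  have hmgf : ∀ v ∈ S, ∑ ω, Real.exp (ε / 8 * Y v ω) ≤ N * Real.exp (-(ε ^ 2 / 16)) := by
    intro v hv
    have h1 : ∀ ω, Real.exp (ε / 8 * Y v ω) ≤ 1 + ε / 8 * Y v ω + ε ^ 2 / 16 := by
      intro ω
      have h2 := hb v hv ω
      have h3 : |ε / 8 * Y v ω| ≤ 1 := by
        rw [abs_mul, abs_of_nonneg (by linarith : 0 ≤ ε / 8)]
        nlinarith [abs_nonneg (Y v ω)]
      have h4 := (abs_le.1 (Real.abs_exp_sub_one_sub_id_le h3)).2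
      have h5 : (Y v ω) ^ 2 ≤ 4 := by
        have := abs_le.1 h2
        nlinarith
      have h6 : (ε / 8 * Y v ω) ^ 2 ≤ ε ^ 2 / 16 := by
        rw [mul_pow]
        nlinarith [sq_nonneg ε]
      linarith
    calc _ ≤ ∑ ω, (1 + ε / 8 * Y v ω + ε ^ 2 / 16) := Finset.sum_le_sum fun ω _ => h1 ω
      _ = N + ε / 8 * ∑ ω, Y v ω + N * (ε ^ 2 / 16) := by
          simp only [Finset.sum_add_distrib, Finset.sum_const, Finset.card_univ, nsmul_eq_mul,
            mul_one, ← Finset.mul_sum, hN]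
      _ ≤ N * (1 - ε ^ 2 / 16) := by
          have := mul_le_mul_of_nonneg_left (hm v hv) (by linarith : 0 ≤ ε / 8)
          nlinarith
      _ ≤ _ := by
          apply mul_le_mul_of_nonneg_left _ hNpos.le
          have := Real.add_one_le_exp (-(ε ^ 2 / 16)); linarith
  have htot : N ^ T ≤ S.card * (N ^ T * Real.exp (-(T * ε ^ 2 / 16))) := by
    calc N ^ T = ∑ _ω : Fin T → Ω, (1 : ℝ) := by simp [hN]
      _ ≤ ∑ ω : Fin T → Ω, ∑ v ∈ S, ∏ i, Real.exp (ε / 8 * Y v (ω i)) :=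
          Finset.sum_le_sum fun ω _ => hone ω
      _ = ∑ v ∈ S, (∑ ω, Real.exp (ε / 8 * Y v ω)) ^ T := by
          rw [Finset.sum_comm]
          exact Finset.sum_congr rfl fun v _ => by rw [Fintype.sum_pow]
      _ ≤ ∑ _v ∈ S, (N * Real.exp (-(ε ^ 2 / 16))) ^ T :=
          Finset.sum_le_sum fun v hv => pow_le_pow_left₀
            (Finset.sum_nonneg fun ω _ => (Real.exp_pos _).le) (hmgf v hv) T
      _ = _ := by
          rw [Finset.sum_const, nsmul_eq_mul, mul_pow, ← Real.exp_nat_mul]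
          congr 3
          ring
  have hp : 0 < N ^ T := pow_pos hNpos T
  have := mul_lt_mul_of_pos_left hT hp
  nlinarith

/-- A sign function, odd under the shift by `θ`, whose correlation with a distribution is at
least the Fourier coefficient at a character that is odd under the shift. -/
theorem exists_bias {A Ω : Type} [AddCommGroup A] [Fintype A] [Fintype Ω]
    (θ : A) (hθ : θ + θ = 0) (χ : AddChar A ℂ) (hχ : χ θ = -1) (σ : Ω → A) :
    ∃ F : A → ℤ, (∀ y, |F y| ≤ 1) ∧ (∀ y, F (y + θ) = -F y) ∧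
      ‖∑ t, χ (σ t)‖ ≤ ∑ t, (F (σ t) : ℝ) := by
  classical
  let ν : A → ℤ := fun y => ∑ t, if σ t = y then 1 else 0
  let d : A → ℤ := fun y => ν y - ν (y + θ)
  have hd : ∀ y, d (y + θ) = -d y := by
    intro y
    simp only [d]
    rw [add_assoc, hθ, add_zero]; ring
  have hFodd : ∀ y, (d (y + θ)).sign = -(d y).sign := fun y => by rw [hd, Int.sign_neg]
  refine ⟨fun y => (d y).sign, fun y => ?_, hFodd, ?_⟩
  · show |(d y).sign| ≤ 1
    rcases lt_trichotomy (d y) 0 with h | h | h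
    · rw [Int.sign_eq_neg_one_of_neg h]; norm_num
    · rw [h]; norm_num
    · rw [Int.sign_eq_one_of_pos h]; norm_num
  · have hgen : ∀ f : A → ℂ, (∀ y, f (y + θ) = -f y) →
        2 * ∑ t, f (σ t) = ∑ y, (d y : ℂ) * f y := by
      intro f hf
      have h1 : ∑ t, f (σ t) = ∑ y, (ν y : ℂ) * f y := by
        simp only [ν]
        push_cast
        simp only [Finset.sum_mul]
        rw [Finset.sum_comm]
        simp
      have h2 : ∑ y, (ν (y + θ) : ℂ) * f (y + θ) = ∑ y, (ν y : ℂ) * f y :=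
        Equiv.sum_comp (Equiv.addRight θ) (fun y => (ν y : ℂ) * f y)
      simp only [hf, mul_neg, Finset.sum_neg_distrib] at h2
      simp only [d]
      push_cast
      simp only [sub_mul, Finset.sum_sub_distrib]
      rw [h1, two_mul, sub_eq_add_neg, h2]
    have h1 := hgen (fun y => χ y) (fun y => by rw [AddChar.map_add_eq_mul, hχ]; ring)
    have h2 := hgen (fun y => (((d y).sign : ℤ) : ℂ)) (fun y => by rw [hFodd]; push_cast; ring)
    have h3 : 2 * ∑ t, (((d (σ t)).sign : ℤ) : ℝ) = ∑ y, |(d y : ℝ)| := by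
      have h4 : ∀ y, (d y : ℂ) * (((d y).sign : ℤ) : ℂ) = ((|(d y : ℝ)| : ℝ) : ℂ) := by
        intro y
        rw [← Int.cast_mul, Int.mul_sign_self, ← Int.cast_abs, Complex.ofReal_intCast,
          Int.natCast_natAbs]
      simp only [h4] at h2
      exact_mod_cast h2
    have h5 : 2 * ‖∑ t, χ (σ t)‖ ≤ ∑ y, |(d y : ℝ)| := by
      calc 2 * ‖∑ t, χ (σ t)‖ = ‖2 * ∑ t, χ (σ t)‖ := by simp
        _ = ‖∑ y, (d y : ℂ) * χ y‖ := by rw [h1]
        _ ≤ ∑ y, ‖(d y : ℂ) * χ y‖ := norm_sum_le _ _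
        _ = _ := Finset.sum_congr rfl fun y _ => by
            rw [norm_mul, AddChar.norm_apply, mul_one, Complex.norm_intCast]
    linarith

end Pool.Agent.P.MP_838999_co
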