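import Mathlib

namespace Pool.Agent.P.MP_838999_co

open Finset Combinatorics Polynomial

/-- The alternating sum over a large cube of a `2^m`-periodic integer function is divisible by a
large power of two. -/
theorem cylinder_identity {ι : Type} [Fintype ι] [DecidableEq ι] (m a : ℕ) (hm : 1 ≤ m)
    (G : ℕ → ℤ) (hG : ∀ n, G (n + 2 ^ m) = G n) (u : ι → ℕ) (h : 2 ^ m * a ≤ Fintype.card ι) :
    (2 : ℤ) ^ a ∣ ∑ J : Finset ι, (-1) ^ J.card * G (∑ j ∈ Jᶜ, u j) := by
  let Φ : ℤ[X] →ₗ[ℤ] ℤ := (Polynomial.basisMonomials ℤ).constr ℤ G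
  have hΦm : ∀ n, Φ (monomial n 1) = G n := fun n => by
    have := (Polynomial.basisMonomials ℤ).constr_basis ℤ G n
    simpa [Φ] using this
  have hΦ : ∀ n, Φ (X ^ n) = G n := fun n => by rw [← hΦm, monomial_one_right_eq_X_pow]
  have hper : ∀ q : ℤ[X], Φ (X ^ (2 ^ m) * q) = Φ q := by
    intro q
    induction q using Polynomial.induction_on' with
    | add p q hp hq => rw [mul_add, map_add, map_add, hp, hq]
    | monomial n c =>
      have e1 : (monomial n c : ℤ[X]) = c • X ^ n := by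
        rw [← C_mul_X_pow_eq_monomial, smul_eq_C_mul]
      rw [e1, mul_smul_comm, map_smul, map_smul, ← pow_add, hΦ, hΦ, add_comm, hG]
  obtain ⟨r, hr⟩ := exists_add_pow_prime_pow_eq Nat.prime_two (X : ℤ[X]) (-1) m
  have hev : ((-1 : ℤ[X])) ^ (2 ^ m) = 1 := by
    apply Even.neg_one_pow
    exact (Nat.even_pow' (by omega)).2 (by norm_num)
  have h1 : (X - 1 : ℤ[X]) ^ (2 ^ m) - 2 * (1 - X * r) = X ^ (2 ^ m) - 1 := by
    rw [sub_eq_add_neg X 1, hr, hev]
    push_cast
    ring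
  have h2 : (X ^ (2 ^ m) - 1 : ℤ[X]) ∣ ((X - 1) ^ (2 ^ m)) ^ a - (2 * (1 - X * r)) ^ a := by
    rw [← h1]; exact sub_dvd_pow_sub_pow _ _ _
  have h3 : ((X - 1 : ℤ[X]) ^ (2 ^ m)) ^ a ∣ ∏ j, (X ^ u j - 1) := by
    rw [← pow_mul]
    refine (pow_dvd_pow _ h).trans ?_
    rw [← Finset.card_univ, ← Finset.prod_const]
    apply Finset.prod_dvd_prod_of_dvd
    intro j _
    simpa using sub_dvd_pow_sub_pow (X : ℤ[X]) 1 (u j)
  obtain ⟨A, hA⟩ := h2
  obtain ⟨B, hB⟩ := h3
  have h4 : ∏ j, (X ^ u j - 1 : ℤ[X]) =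
      X ^ (2 ^ m) * (A * B) - A * B + ((2 : ℤ) ^ a) • ((1 - X * r) ^ a * B) := by
    rw [hB]
    have : ((X - 1 : ℤ[X]) ^ (2 ^ m)) ^ a =
        (X ^ (2 ^ m) - 1) * A + (2 * (1 - X * r)) ^ a := by rw [← hA]; ring
    rw [this, mul_pow, zsmul_eq_mul]
    push_cast
    ring
  have h5 : Φ (∏ j, (X ^ u j - 1 : ℤ[X])) =
      ∑ J : Finset ι, (-1) ^ J.card * G (∑ j ∈ Jᶜ, u j) := by
    rw [Finset.prod_sub, Finset.powerset_univ, map_sum]
    refine Finset.sum_congr rfl fun J _ => ?_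
    rw [Finset.prod_const_one, mul_one, Finset.prod_pow_eq_pow_sum, ← Finset.compl_eq_univ_sdiff]
    have : ((-1 : ℤ[X])) ^ J.card * X ^ (∑ j ∈ Jᶜ, u j) =
        ((-1 : ℤ) ^ J.card) • X ^ (∑ j ∈ Jᶜ, u j) := by
      rw [zsmul_eq_mul]; push_cast; ring
    rw [this, map_smul, hΦ, smul_eq_mul]
  rw [← h5, h4, map_add, map_sub, hper, sub_self, zero_add, map_smul, smul_eq_mul]
  exact dvd_mul_right _ _

/-- A family of functions, the `j`-th blind to the `j`-th count, whose sum separates the total `n`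
from the smaller totals, colours the cube without monochromatic line. -/
theorem colouring_of_blind {s n : ℕ} (hs : 1 ≤ s) {A : Type} [AddCommMonoid A]
    (φ : Fin s → (Fin s → ℕ) → A)
    (hφ : ∀ j v v', (∀ i, i ≠ j → v i = v' i) → φ j v = φ j v')
    (hsep : ∀ v v' : Fin s → ℕ, ∑ j, v j = n → ∑ j, v' j < n → ∑ j, φ j v ≠ ∑ j, φ j v') :
    ∃ W : (Fin n → Fin s) → (Fin s → A), ∀ l : Line (Fin s) (Fin n), ¬ l.IsMono W := by
  classical
  let cnt : (Fin n → Fin s) → Fin s → ℕ := fun w j => (univ.filter fun i => w i = j).card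
  have hcnt : ∀ w, ∑ j, cnt w j = n := by
    intro w
    have := Finset.card_eq_sum_card_fiberwise (s := (univ : Finset (Fin n)))
      (t := (univ : Finset (Fin s))) (f := w) (fun _ _ => by simp)
    simp only [Finset.card_univ, Fintype.card_fin] at this
    exact this.symm
  refine ⟨fun w j => φ j (cnt w), ?_⟩
  rintro l ⟨c, hc⟩
  let z : Fin s := ⟨0, by omega⟩
  let v : Fin s → ℕ := fun j => (univ.filter fun i => l.idxFun i = some j).card
  have hv : ∀ a j, j ≠ a → cnt (l a) j = v j := by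
    intro a j hj
    simp only [cnt, v]
    congr 1
    ext i
    rw [Finset.mem_filter, Finset.mem_filter]
    cases h : l.idxFun i <;> simp [h, hj.symm]
  have hlt : ∑ j, v j < n := by
    rw [← hcnt (l z)]
    apply Finset.sum_lt_sum
    · intro j _
      apply Finset.card_le_card
      intro i hi
      simp only [mem_filter, mem_univ, true_and] at hi ⊢
      simp [hi]
    · refine ⟨z, mem_univ _, ?_⟩
      apply Finset.card_lt_card
      obtain ⟨i₀, hi₀⟩ := l.proper
      refine ⟨?_, ?_⟩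
      · intro i hi
        simp only [mem_filter, mem_univ, true_and] at hi ⊢
        simp [hi]
      · intro hsub
        have : i₀ ∈ univ.filter fun i => l.idxFun i = some z := 
          hsub (Finset.mem_filter.2 ⟨mem_univ _, by simp [hi₀]⟩)
        simp [hi₀] at this
  apply hsep (cnt (l z)) v (hcnt _) hlt
  refine Finset.sum_congr rfl fun j _ => ?_
  have h1 : φ j (cnt (l z)) = φ j (cnt (l j)) :=
    (congrFun (hc z) j).trans (congrFun (hc j) j).symm
  rw [h1]
  exact hφ j _ _ fun i hi => hv j i hi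

/-- From cylinder functions to blind functions. -/
theorem colouring_of_cylinders {s n : ℕ} (hs : 1 ≤ s) (q : ℕ)
    (E : Finset (Fin s) → (Fin s → ℕ) → ℤ)
    (hE : ∀ J v v', (∀ i, i ∉ J → v i = v' i) → E J v = E J v')
    (hdiv : ∀ v, (q : ℤ) ∣ ∑ J, E J v)
    (hsep : ∀ v v' : Fin s → ℕ, ∑ j, v j = n → ∑ j, v' j < n → ¬ (q : ℤ) ∣ E ∅ v - E ∅ v') :
    ∃ W : (Fin n → Fin s) → (Fin s → ZMod q), ∀ l : Line (Fin s) (Fin n), ¬ l.IsMono W := by
  classical
  let z : Fin s := ⟨0, by omega⟩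
  let ch : Finset (Fin s) → Fin s := fun J => if h : J.Nonempty then h.choose else z
  have hch : ∀ J : Finset (Fin s), J ≠ ∅ → ch J ∈ J := by
    intro J hJ
    have h : J.Nonempty := Finset.nonempty_iff_ne_empty.2 hJ
    simp only [ch, h, dif_pos]
    exact h.choose_spec
  let φ : Fin s → (Fin s → ℕ) → ZMod q := fun j v =>
    ∑ J ∈ (univ.erase ∅).filter (fun J => ch J = j), ((E J v : ℤ) : ZMod q)
  have hsum : ∀ v, ∑ j, φ j v = -((E ∅ v : ℤ) : ZMod q) := by
    intro v
    simp only [φ]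
    rw [Finset.sum_fiberwise_of_maps_to (fun _ _ => mem_univ _)]
    have h1 : ((∑ J, E J v : ℤ) : ZMod q) = 0 := (ZMod.intCast_zmod_eq_zero_iff_dvd _ _).2 (hdiv v)
    rw [← Finset.add_sum_erase _ _ (mem_univ ∅)] at h1
    push_cast at h1
    exact eq_neg_of_add_eq_zero_right h1
  refine colouring_of_blind hs φ ?_ ?_
  · intro j v v' hvv
    refine Finset.sum_congr rfl fun J hJ => ?_
    simp only [mem_filter, mem_erase, mem_univ, and_true] at hJ
    rw [hE J v v' fun i hi => hvv i ?_]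
    rintro rfl
    exact hi (hJ.2 ▸ hch J hJ.1)
  · intro v v' hv hv' heq
    rw [hsum, hsum, neg_inj] at heq
    apply hsep v v' hv hv'
    rw [← ZMod.intCast_zmod_eq_zero_iff_dvd]
    push_cast
    rw [heq, sub_self]

end Pool.Agent.P.MP_838999_co
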