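import Mathlib

namespace Pool.Agent.P.MP_838999_co

/-- The edges of `H(k,n)`: sets of `k` points of the cube `{1,...,k}^n` on one straight line of
`ℝ^n`; the letter `a : Fin k` stands for the integer `a + 1`. -/
def IsLine (k n : ℕ) (S : Finset (Fin n → Fin k)) : Prop :=
  S.card = k ∧
    Collinear ℝ ((fun (x : Fin n → Fin k) (i : Fin n) => (((x i : ℕ) : ℝ) + 1)) '' (S : Set _))

/-- `H(k,n)` has a colouring with two colours and no monochromatic edge. -/
def TwoColourable (k n : ℕ) : Prop :=
  ∃ c : (Fin n → Fin k) → Bool, ∀ S, IsLine k n S → ∃ x ∈ S, ∃ y ∈ S, c x ≠ c y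

/-- The least `N` such that `H(k,n)` has chromatic number at least three for all `n ≥ N`. -/
noncomputable def HJ (k : ℕ) : ℕ :=
  sInf {N : ℕ | ∀ n, N ≤ n → ¬ TwoColourable k n}

end Pool.Agent.P.MP_838999_co
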