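import Pool.Agent.P.MP_838999_co.Defs

namespace Pool.Agent.P.MP_838999_co

open Finset Combinatorics

/-- Parametrisation of a geometric line of the cube. -/
theorem line_param {k n : ℕ} (hk : 2 ≤ k) {S : Finset (Fin n → Fin k)} (hS : IsLine k n S) :
    ∃ (P : Fin k → Fin n → Fin k) (A : Fin n → Option (Fin k)), (∃ i, A i = none) ∧
      (∀ t, P t ∈ S) ∧ (∀ t i c, A i = some c → P t i = c) ∧
      (∀ t i, A i = none → P t i = t ∨ P t i = t.rev) := by
  classical
  obtain ⟨hcard, hcol⟩ := hS
  rw [collinear_iff_exists_forall_eq_smul_vadd] at hcol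
  obtain ⟨p₀, v, hv⟩ := hcol
  have hv' : ∀ x ∈ S, ∃ r : ℝ, ∀ i, ((x i : ℕ) : ℝ) + 1 = r * v i + p₀ i := by
    intro x hx
    obtain ⟨r, hr⟩ := hv _ ⟨x, hx, rfl⟩
    exact ⟨r, fun i => by simpa using congrFun hr i⟩
  choose! r hr using hv'
  have hinj : ∀ i, v i ≠ 0 → ∀ x ∈ S, ∀ y ∈ S, x i = y i → x = y := by
    intro i hi x hx y hy hxy
    have h1 := hr x hx i
    have h2 := hr y hy i
    rw [hxy] at h1
    have h3 : r x = r y := by
      have : (r x - r y) * v i = 0 := by linarith
      rcases mul_eq_zero.1 this with h | h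
      · linarith
      · exact absurd h hi
    funext j
    have h4 := hr x hx j
    have h5 := hr y hy j
    rw [h3] at h4
    have : ((x j : ℕ) : ℝ) = ((y j : ℕ) : ℝ) := by linarith
    exact Fin.ext (by exact_mod_cast this)
  have hconst : ∀ i, v i = 0 → ∀ x ∈ S, ∀ y ∈ S, x i = y i := by
    intro i hi x hx y hy
    have h4 := hr x hx i
    have h5 := hr y hy i
    rw [hi] at h4 h5
    have : ((x i : ℕ) : ℝ) = ((y i : ℕ) : ℝ) := by linarith
    exact Fin.ext (by exact_mod_cast this)
  obtain ⟨i₀, hi₀⟩ : ∃ i, v i ≠ 0 := by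
    by_contra hcon
    push Not at hcon
    have : S.card ≤ 1 := Finset.card_le_one.2 fun x hx y hy =>
      funext fun i => hconst i (hcon i) x hx y hy
    omega
  have hsurj : ∀ t : Fin k, ∃ x ∈ S, x i₀ = t := by
    have himg : S.image (fun x => x i₀) = univ := by
      apply Finset.eq_univ_of_card
      rw [Finset.card_image_of_injOn (fun x hx y hy h => hinj i₀ hi₀ x hx y hy h), hcard,
        Fintype.card_fin]
    intro t
    have : t ∈ S.image (fun x => x i₀) := himg ▸ mem_univ t
    simpa using this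
  choose P hPS hP using hsurj
  let t₀ : Fin k := ⟨0, by omega⟩
  refine ⟨P, fun i => if v i = 0 then some (P t₀ i) else none, ⟨i₀, by simp [hi₀]⟩, hPS, ?_, ?_⟩
  · intro t i c hc
    by_cases hi : v i = 0
    · simp only [hi, if_true, Option.some.injEq] at hc
      rw [← hc]
      exact hconst i hi _ (hPS t) _ (hPS t₀)
    · simp [hi] at hc
  · intro t i hc
    have hi : v i ≠ 0 := by
      intro hi
      simp [hi] at hc
    have key : ∀ a b : Fin k, (((P a i : ℕ) : ℝ) - ((P b i : ℕ) : ℝ)) * v i₀ =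
        (((a : ℕ) : ℝ) - ((b : ℕ) : ℝ)) * v i := by
      intro a b
      have h1 := hr _ (hPS a) i
      have h2 := hr _ (hPS b) i
      have h3 := hr _ (hPS a) i₀
      have h4 := hr _ (hPS b) i₀
      rw [hP] at h3 h4
      have e1 : ((P a i : ℕ) : ℝ) - ((P b i : ℕ) : ℝ) = (r (P a) - r (P b)) * v i := by linarith
      have e2 : ((a : ℕ) : ℝ) - ((b : ℕ) : ℝ) = (r (P a) - r (P b)) * v i₀ := by linarith
      rw [e1, e2]; ring
    have key2 : ∀ a b : Fin k, ((P a i : ℕ) : ℝ) - ((P b i : ℕ) : ℝ) =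
        (((a : ℕ) : ℝ) - ((b : ℕ) : ℝ)) * (v i / v i₀) := by
      intro a b
      have := key a b
      field_simp
      linarith
    have hq : v i / v i₀ ≠ 0 := div_ne_zero hi hi₀
    rcases lt_or_gt_of_ne hq with hneg | hpos
    · right
      have hm : StrictMono (fun a : Fin k => (P a i).rev) := by
        intro a b hab
        have h1 := key2 a b
        have h2 : ((a : ℕ) : ℝ) - ((b : ℕ) : ℝ) < 0 := by
          have : ((a : ℕ) : ℝ) < ((b : ℕ) : ℝ) := by exact_mod_cast hab
          linarith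
        have h3 : 0 < ((P a i : ℕ) : ℝ) - ((P b i : ℕ) : ℝ) := by
          rw [h1]; exact mul_pos_of_neg_of_neg h2 hneg
        have h4 : P b i < P a i := by
          have : ((P b i : ℕ) : ℝ) < ((P a i : ℕ) : ℝ) := by linarith
          exact_mod_cast this
        exact Fin.rev_lt_rev.2 h4
      have : (P t i).rev = t := hm.apply_eq (x := t)
      exact Fin.rev_eq_iff.1 this
    · left
      have hm : StrictMono (fun a : Fin k => P a i) := by
        intro a b hab
        have h1 := key2 a b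
        have h2 : ((a : ℕ) : ℝ) - ((b : ℕ) : ℝ) < 0 := by
          have : ((a : ℕ) : ℝ) < ((b : ℕ) : ℝ) := by exact_mod_cast hab
          linarith
        have h3 : ((P a i : ℕ) : ℝ) - ((P b i : ℕ) : ℝ) < 0 := by
          rw [h1]; exact mul_neg_of_neg_of_pos h2 hpos
        have : ((P a i : ℕ) : ℝ) < ((P b i : ℕ) : ℝ) := by linarith
        exact_mod_cast this
      exact hm.apply_eq (x := t)

/-- A combinatorial line is an edge of `H(k,n)`. -/
theorem isLine_of_line {k n : ℕ} (l : Line (Fin k) (Fin n)) :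
    IsLine k n (univ.image (fun t => l t)) := by
  classical
  obtain ⟨i₀, hi₀⟩ := l.proper
  constructor
  · rw [Finset.card_image_of_injective, Finset.card_univ, Fintype.card_fin]
    intro a b hab
    have := congrFun hab i₀
    simpa [hi₀] using this
  · rw [collinear_iff_exists_forall_eq_smul_vadd]
    refine ⟨fun i => ((l.idxFun i).elim 0 (fun c => ((c : ℕ) : ℝ))) + 1,
      fun i => (l.idxFun i).elim 1 (fun _ => 0), ?_⟩
    rintro p ⟨x, hx, rfl⟩
    simp only [coe_image, coe_univ, Set.image_univ, Set.mem_range] at hx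
    obtain ⟨t, rfl⟩ := hx
    refine ⟨((t : ℕ) : ℝ), ?_⟩
    funext i
    cases h : l.idxFun i <;> simp [h]

theorem HJ_set_nonempty {k : ℕ} (hk : 1 ≤ k) :
    {N : ℕ | ∀ n, N ≤ n → ¬ TwoColourable k n}.Nonempty := by
  classical
  obtain ⟨ι, hι, h⟩ := Line.exists_mono_in_high_dimension (Fin k) Bool
  refine ⟨Fintype.card ι, fun n hn => ?_⟩
  rintro ⟨c, hc⟩
  obtain ⟨e⟩ : Nonempty (ι ↪ Fin n) :=
    Function.Embedding.nonempty_of_card_le (by simpa using hn)
  let z : Fin k := ⟨0, by omega⟩
  obtain ⟨l, b, hb⟩ := h (fun x => c (Function.extend e x (fun _ => z)))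
  let l' : Line (Fin k) (Fin n) :=
    ⟨Function.extend e l.idxFun (fun _ => some z), by
      obtain ⟨i, hi⟩ := l.proper
      exact ⟨e i, by rw [e.injective.extend_apply]; exact hi⟩⟩
  have hl : ∀ t, l' t = Function.extend e (l t) (fun _ => z) := by
    intro t
    funext j
    by_cases hj : ∃ i, e i = j
    · obtain ⟨i, rfl⟩ := hj
      simp [l', e.injective.extend_apply]
    · simp [l', Function.extend_apply' _ _ _ hj]
  obtain ⟨x, hx, y, hy, hxy⟩ := hc _ (isLine_of_line l')
  simp only [mem_image, mem_univ, true_and] at hx hy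
  obtain ⟨t, rfl⟩ := hx
  obtain ⟨t', rfl⟩ := hy
  apply hxy
  rw [hl, hl]
  exact (hb t).trans (hb t').symm

theorem lt_HJ {k n : ℕ} (hk : 1 ≤ k) (h : TwoColourable k n) : n < HJ k := by
  by_contra hcon
  push Not at hcon
  exact Nat.sInf_mem (HJ_set_nonempty hk) n hcon h

/-- The folding step: a colouring of `[s]^n` without monochromatic combinatorial line, a symmetric
code `g` and a separating `F` give a proper two-colouring of `H(k,n)`. -/
theorem twoColourable_of {k n s D : ℕ} (hk : 2 ≤ k) {R : Type} (W : (Fin n → Fin s) → R)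
    (hW : ∀ l : Line (Fin s) (Fin n), ¬ l.IsMono W) (hs : 1 ≤ s)
    (g : Fin k → Fin D → Fin s) (hg : ∀ t, g t.rev = g t) (F : (Fin D → R) → Bool)
    (hF : ∀ ω : Fin D → Fin s → R, (∀ l, ∃ a b, ω l a ≠ ω l b) →
      ∃ t t', F (fun l => ω l (g t l)) ≠ F (fun l => ω l (g t' l))) :
    TwoColourable k n := by
  refine ⟨fun w => F (fun l => W (fun i => g (w i) l)), fun S hS => ?_⟩
  obtain ⟨P, A, hA, hPS, h1, h2⟩ := line_param hk hS
  let L : Fin D → Line (Fin s) (Fin n) := fun l =>
    ⟨fun i => (A i).map (fun c => g c l), by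
      obtain ⟨i, hi⟩ := hA
      exact ⟨i, by simp [hi]⟩⟩
  have hL : ∀ t l, (fun i => g (P t i) l) = L l (g t l) := by
    intro t l
    funext i
    cases h : A i with
    | none =>
      rcases h2 t i h with h3 | h3
      · simp [L, h, h3]
      · simp [L, h, h3, hg]
    | some c => simp [L, h, h1 t i c h]
  obtain ⟨t, t', htt⟩ := hF (fun l a => W (L l a)) (by
    intro l
    by_contra hcon
    push Not at hcon
    exact hW (L l) ⟨W (L l ⟨0, by omega⟩), fun x => hcon _ _⟩)
  refine ⟨P t, hPS t, P t', hPS t', ?_⟩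
  simp only [hL]
  exact htt

end Pool.Agent.P.MP_838999_co
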