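import Pool.Agent.P.MP_838999_co.Reduce

namespace Pool.Agent.P.MP_838999_co

open Finset Combinatorics

/-- The colour reduction, in a fixed dimension. -/
theorem twoColourable_of_colouring {k n s : ℕ} {R : Type} [Fintype R] [DecidableEq R]
    (hs : 2 ≤ s) (hr : 2 ≤ Fintype.card R) (hk : 2 ≤ k)
    (h : 20 * (s : ℝ) ^ 2 * Real.log (Fintype.card R) * Real.log k ≤ k)
    (W : (Fin n → Fin s) → R) (hW : ∀ l : Line (Fin s) (Fin n), ¬ l.IsMono W) :
    TwoColourable k n := by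
  set r : ℝ := (Fintype.card R : ℝ) with hrdef
  have hr2 : (2 : ℝ) ≤ r := by rw [hrdef]; exact_mod_cast hr
  have hs2 : (2 : ℝ) ≤ s := by exact_mod_cast hs
  have hk2 : (2 : ℝ) ≤ k := by exact_mod_cast hk
  have hl2 := Real.log_two_gt_d9
  have hl2' := Real.log_two_lt_d9
  have hlr : Real.log 2 ≤ Real.log r := Real.log_le_log (by norm_num) hr2
  have hlk : Real.log 2 ≤ Real.log k := Real.log_le_log (by norm_num) hk2
  have hs4 : (4 : ℝ) ≤ (s : ℝ) ^ 2 := by nlinarith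
  have hA : (2.76 : ℝ) ≤ (s : ℝ) ^ 2 * Real.log r := by nlinarith
  have hk38 : (38 : ℝ) ≤ k := by nlinarith
  have hL3 : 3 ≤ Real.log k := by
    rw [Real.le_log_iff_exp_le (by linarith)]
    have h1 := Real.exp_one_lt_d9
    have h2 : Real.exp 3 = Real.exp 1 ^ 3 := by rw [← Real.exp_nat_mul]; norm_num
    have h3 : Real.exp 1 ^ 3 ≤ 3 ^ 3 := pow_le_pow_left₀ (Real.exp_pos 1).le (by linarith) 3
    linarith
  set K : ℕ := (k + 1) / 2 with hK
  have hK1 : 1 ≤ K := by omega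
  have hK0 : (0 : ℝ) < K := by exact_mod_cast hK1
  have hKk : (K : ℝ) ≤ k := by exact_mod_cast (by omega : K ≤ k)
  have hkK : (k : ℝ) ≤ 2 * K := by exact_mod_cast (by omega : k ≤ 2 * K)
  set m : ℕ := ⌈Real.log K⌉₊ with hm
  have hm1 : Real.log K ≤ m := Nat.le_ceil _
  have hm2 : (m : ℝ) ≤ 4 / 3 * Real.log k := by
    have h1 : (m : ℝ) < Real.log K + 1 :=
      Nat.ceil_lt_add_one (Real.log_nonneg (by exact_mod_cast hK1))
    have h2 : Real.log K ≤ Real.log k := Real.log_le_log hK0 hKk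
    linarith
  have h1 : K * (1 - 1 / (s : ℝ)) ^ (s * m) ≤ 2 := by
    have e1 : 1 - 1 / (s : ℝ) ≤ Real.exp (-(1 / (s : ℝ))) := by
      have := Real.add_one_le_exp (-(1 / (s : ℝ))); linarith
    have e0 : 0 ≤ 1 - 1 / (s : ℝ) := by
      have : 1 / (s : ℝ) ≤ 1 := by rw [div_le_one (by linarith)]; linarith
      linarith
    have e2 : (1 - 1 / (s : ℝ)) ^ (s * m) ≤ Real.exp (-(1 / (s : ℝ))) ^ (s * m) :=
      pow_le_pow_left₀ e0 e1 _
    have e3 : Real.exp (-(1 / (s : ℝ))) ^ (s * m) = Real.exp (-(m : ℝ)) := by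
      rw [← Real.exp_nat_mul]
      congr 1
      push_cast
      field_simp
    have e4 : Real.exp (-(m : ℝ)) ≤ Real.exp (-Real.log K) := Real.exp_le_exp.2 (by linarith)
    rw [Real.exp_neg (Real.log K), Real.exp_log hK0] at e4
    have e5 : (K : ℝ) * (1 - 1 / (s : ℝ)) ^ (s * m) ≤ K * (K : ℝ)⁻¹ :=
      mul_le_mul_of_nonneg_left (by linarith) hK0.le
    rw [mul_inv_cancel₀ hK0.ne'] at e5
    linarith
  have h2 : 2 * r ^ (s * (s * m)) * Real.exp (-(K : ℝ) / 4) < 1 := by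
    have e1 : r ^ (s * (s * m)) = Real.exp (((s * (s * m) : ℕ) : ℝ) * Real.log r) := by
      rw [Real.exp_nat_mul, Real.exp_log (by linarith)]
    have e2 : (2 : ℝ) = Real.exp (Real.log 2) := (Real.exp_log (by norm_num)).symm
    rw [e1, e2, ← Real.exp_add, ← Real.exp_add, Real.exp_lt_one_iff]
    push_cast
    have e3 : (s : ℝ) * (s * m) * Real.log r ≤ k / 15 := by
      have : (s : ℝ) * (s * m) * Real.log r = ((s : ℝ) ^ 2 * Real.log r) * m := by ring
      rw [this]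
      have := mul_le_mul_of_nonneg_left hm2 (by linarith : 0 ≤ (s : ℝ) ^ 2 * Real.log r)
      nlinarith
    linarith
  obtain ⟨T, F, hTF⟩ := exists_code (R := R) (D := s * m) (K := K) (by omega : 1 ≤ s) h1 h2
  let f : Fin k → Fin K := fun t => ⟨min (t : ℕ) (t.rev : ℕ), by
    have := t.2
    rw [Fin.val_rev]
    omega⟩
  have hf : ∀ t, f t.rev = f t := fun t => by
    apply Fin.ext
    simp only [f, Fin.rev_rev]
    exact min_comm _ _
  have hfs : ∀ j, ∃ t, f t = j := fun j => by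
    have := j.2
    refine ⟨⟨j, by omega⟩, Fin.ext ?_⟩
    simp only [f, Fin.val_rev]
    omega
  refine twoColourable_of hk W hW (by omega) (fun t => T (f t)) (fun t => by rw [hf]) F ?_
  intro ω hω
  obtain ⟨j, j', hjj⟩ := hTF ω hω
  obtain ⟨t, rfl⟩ := hfs j
  obtain ⟨t', rfl⟩ := hfs j'
  exact ⟨t, t', hjj⟩

/-- The colour reduction for the numbers `HJ`. -/
theorem colour_reduction (s r k : ℕ) (hs : 2 ≤ s) (hr : 2 ≤ r) (hk : 2 ≤ k)
    (h : 20 * (s : ℝ) ^ 2 * Real.log r * Real.log k ≤ k) (n : ℕ) (hn : HJ k ≤ n)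
    (c : (Fin n → Fin s) → Fin r) : ∃ l : Line (Fin s) (Fin n), l.IsMono c := by
  by_contra hcon
  push Not at hcon
  have := lt_HJ (by omega) (twoColourable_of_colouring (R := Fin r) hs (by simpa using hr) hk
    (by simpa using h) c hcon)
  omega

end Pool.Agent.P.MP_838999_co
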