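import Pool.Agent.P.MP_838999_co.Many2
import Pool.Agent.P.MP_838999_co.Reduce2

namespace Pool.Agent.P.MP_838999_co

open Finset Combinatorics

theorem lt_HJ_of {k y : ℕ} (hk : 2 ≤ k) (hy : 30 ≤ y)
    (h : 20 * 2 ^ 29 * (y : ℝ) ^ 4 * Real.log k ≤ k) : 2 ^ 2 ^ y < HJ k := by
  obtain ⟨W, hW⟩ := many_colours hy
  have hcard : Fintype.card (Fin (128 * (4 * y)) → ZMod (2 ^ (4 * y))) =
      2 ^ (4 * y * (128 * (4 * y))) := by
    rw [Fintype.card_fun, ZMod.card, Fintype.card_fin, ← pow_mul]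
  refine lt_HJ (by omega) (twoColourable_of_colouring (by omega) ?_ hk ?_ W hW)
  · rw [hcard]
    calc 2 = 2 ^ 1 := by norm_num
      _ ≤ _ := Nat.pow_le_pow_right (by norm_num) (Nat.mul_pos (by omega) (by omega))
  · rw [hcard]
    refine le_trans ?_ h
    apply mul_le_mul_of_nonneg_right _ (Real.log_natCast_nonneg k)
    push_cast
    rw [Real.log_pow]
    push_cast
    have h1 := Real.log_two_lt_d9
    have h2 : (0 : ℝ) ≤ (y : ℝ) ^ 4 := by positivity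
    nlinarith

theorem double_exponential :
    ∃ c : ℝ, 0 < c ∧ ∃ k₀ : ℕ, ∀ k : ℕ, k₀ ≤ k →
      (2 : ℝ) ^ (2 : ℝ) ^ (c * ((k : ℝ) / Real.log k) ^ (1 / 4 : ℝ)) ≤ HJ k := by
  refine ⟨1 / 1024, by norm_num, ?_⟩
  have h1 := Real.isLittleO_log_id_atTop.bound (c := 1 / 30720 ^ 4) (by positivity)
  obtain ⟨k₀, hk₀⟩ := Filter.eventually_atTop.1
    ((tendsto_natCast_atTop_atTop (R := ℝ)).eventually h1)
  refine ⟨max k₀ 2, fun k hk => ?_⟩
  have hk2 : 2 ≤ k := le_trans (le_max_right _ _) hk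
  have hk2' : (2 : ℝ) ≤ k := by exact_mod_cast hk2
  have hlog : 0 < Real.log k := Real.log_pos (by linarith)
  have h2 := hk₀ k (le_trans (le_max_left _ _) hk)
  simp only [id, Real.norm_eq_abs] at h2
  rw [abs_of_pos hlog, abs_of_pos (by linarith)] at h2
  set x : ℝ := ((k : ℝ) / Real.log k) ^ (1 / 4 : ℝ) with hx
  have hq : 0 ≤ (k : ℝ) / Real.log k := by positivity
  have hx0 : 0 ≤ x := Real.rpow_nonneg hq _
  have hx4 : x ^ 4 = (k : ℝ) / Real.log k := by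
    rw [hx, ← Real.rpow_natCast, ← Real.rpow_mul hq]
    norm_num
  have hx1 : (30720 : ℝ) ≤ x := by
    apply le_of_pow_le_pow_left₀ (n := 4) (by norm_num) hx0
    rw [hx4, le_div_iff₀ hlog]
    linarith
  set y : ℕ := ⌈1 / 1024 * x⌉₊ with hy
  have hy1 : 1 / 1024 * x ≤ y := Nat.le_ceil _
  have hy2 : (y : ℝ) < 1 / 1024 * x + 1 := Nat.ceil_lt_add_one (by positivity)
  have hy30 : 30 ≤ y := by
    have : ((30 : ℕ) : ℝ) ≤ y := by push_cast; linarith
    exact_mod_cast this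
  have hy3 : (y : ℝ) ^ 4 ≤ (x / 512) ^ 4 :=
    pow_le_pow_left₀ (Nat.cast_nonneg _) (by linarith) 4
  have h3 : 20 * 2 ^ 29 * (y : ℝ) ^ 4 * Real.log k ≤ k := by
    rw [div_pow, hx4] at hy3
    have h4 : (y : ℝ) ^ 4 * Real.log k ≤ k / 512 ^ 4 := by
      have := mul_le_mul_of_nonneg_right hy3 hlog.le
      rwa [show (k : ℝ) / Real.log k / 512 ^ 4 * Real.log k = k / 512 ^ 4 by field_simp] at this
    nlinarith
  have h5 : ((2 ^ 2 ^ y : ℕ) : ℝ) ≤ HJ k := by exact_mod_cast (lt_HJ_of hk2 hy30 h3).le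
  refine le_trans ?_ h5
  push_cast
  rw [← Real.rpow_natCast (2 : ℝ) (2 ^ y)]
  apply Real.rpow_le_rpow_of_exponent_le (by norm_num)
  push_cast
  rw [← Real.rpow_natCast (2 : ℝ) y]
  exact Real.rpow_le_rpow_of_exponent_le (by norm_num) hy1

end Pool.Agent.P.MP_838999_co
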