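import Pool.Agent.P.MP_838999_co.Cyl
import Pool.Agent.P.MP_838999_co.Bias

namespace Pool.Agent.P.MP_838999_co

open Finset Combinatorics

theorem char_half (R : ℕ) [NeZero (128 * R)] :
    ZMod.stdAddChar (((64 * R : ℕ) : ZMod (128 * R))) = -1 := by
  have hR : (R : ℂ) ≠ 0 := by
    have := NeZero.ne (128 * R)
    exact_mod_cast (by omega : R ≠ 0)
  have := ZMod.stdAddChar_coe (N := 128 * R) ((64 * R : ℕ) : ℤ)
  rw [Int.cast_natCast] at this
  rw [this, ← Complex.exp_pi_mul_I]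
  congr 1
  push_cast
  field_simp
  ring

theorem half_add_half (R : ℕ) :
    ((64 * R : ℕ) : ZMod (128 * R)) + ((64 * R : ℕ) : ZMod (128 * R)) = 0 := by
  rw [← Nat.cast_add, show 64 * R + 64 * R = 128 * R by ring, ZMod.natCast_self]

theorem char_sum_ge (R : ℕ) [NeZero (128 * R)] :
    (1 - 20 / 16384 : ℝ) * ((128 * R : ℕ) : ℝ) ≤
      ‖∑ x : ZMod (128 * R), ZMod.stdAddChar (((x.val % R : ℕ) : ZMod (128 * R)))‖ := by
  have hR0 : 0 < R := by
    have := NeZero.ne (128 * R)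
    omega
  have hR : (0 : ℝ) < R := by exact_mod_cast hR0
  refine le_trans ?_ (Complex.re_le_norm _)
  rw [Complex.re_sum]
  have h1 : ∀ x : ZMod (128 * R), (1 - 20 / 16384 : ℝ) ≤
      (ZMod.stdAddChar (((x.val % R : ℕ) : ZMod (128 * R)))).re := by
    intro x
    set e : ℕ := x.val % R with he
    have heR : (e : ℝ) ≤ R := by exact_mod_cast (Nat.mod_lt _ hR0).le
    have he0 : (0 : ℝ) ≤ e := Nat.cast_nonneg _
    have := ZMod.stdAddChar_coe (N := 128 * R) (e : ℤ)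
    rw [Int.cast_natCast] at this
    rw [this]
    have h2 : (2 * Real.pi * Complex.I * ((e : ℤ) : ℂ) / ((128 * R : ℕ) : ℂ)) =
        ((2 * Real.pi * e / (128 * R) : ℝ) : ℂ) * Complex.I := by
      push_cast; ring
    rw [h2, Complex.exp_ofReal_mul_I_re]
    refine le_trans ?_ Real.one_sub_sq_div_two_le_cos
    have h3 : 2 * Real.pi * e / (128 * R) ≤ Real.pi / 64 := by
      rw [div_le_div_iff₀ (by positivity) (by norm_num)]
      nlinarith [Real.pi_pos]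
    have h4 : 0 ≤ 2 * Real.pi * e / (128 * R) := by positivity
    have h5 : (2 * Real.pi * e / (128 * R)) ^ 2 ≤ (Real.pi / 64) ^ 2 := pow_le_pow_left₀ h4 h3 2
    have h6 := Real.pi_lt_d2
    have h7 : (Real.pi / 64) ^ 2 ≤ 10 / 4096 := by nlinarith [Real.pi_pos]
    linarith
  calc _ = ∑ _x : ZMod (128 * R), (1 - 20 / 16384 : ℝ) := by
        rw [Finset.sum_const, Finset.card_univ, ZMod.card, nsmul_eq_mul, mul_comm]
    _ ≤ _ := Finset.sum_le_sum fun x _ => h1 x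

theorem exists_shift {b h : ℕ} (h1 : 1 ≤ h) (h2 : h ≤ 2 ^ b) :
    ∃ ρ : ZMod (128 * 2 ^ b), ρ * (h : ZMod (128 * 2 ^ b)) = ((64 * 2 ^ b : ℕ) : ZMod _) := by
  obtain ⟨c, m, ⟨k, rfl⟩, rfl⟩ := Nat.exists_eq_two_pow_mul_odd (by omega : h ≠ 0)
  have hc : c ≤ b := by
    have : 2 ^ c ≤ 2 ^ b := le_trans (Nat.le_mul_of_pos_right _ (by omega)) h2
    exact (Nat.pow_le_pow_iff_right (by norm_num)).1 this
  obtain ⟨d, rfl⟩ := Nat.exists_eq_add_of_le hc
  refine ⟨((64 * 2 ^ d : ℕ) : ZMod _), ?_⟩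
  rw [← Nat.cast_mul, show 64 * 2 ^ d * (2 ^ c * (2 * k + 1)) =
    128 * 2 ^ (c + d) * k + 64 * 2 ^ (c + d) by ring, Nat.cast_add, Nat.cast_mul (128 * 2 ^ (c + d)),
    ZMod.natCast_self, zero_mul, zero_add]

/-- The test function of one sample. -/
def sampleFn {s : ℕ} (R : ℕ) (F : ZMod (128 * R) → ℤ) (n : ℕ)
    (ω : ZMod (128 * R) × (Fin s → ZMod (128 * R))) (J : Finset (Fin s)) (v : Fin s → ℕ) : ℤ :=
  F (ω.1 * n + ∑ j, ω.2 j -
    (R : ZMod (128 * R)) * ((∑ j ∈ Jᶜ, (ω.1 * (v j : ZMod (128 * R)) + ω.2 j).val / R : ℕ) :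
      ZMod (128 * R)))

theorem sampleFn_empty {s : ℕ} (R : ℕ) [NeZero (128 * R)] (F : ZMod (128 * R) → ℤ) (h : ℕ)
    (ω : ZMod (128 * R) × (Fin s → ZMod (128 * R))) (v : Fin s → ℕ) :
    sampleFn R F (∑ j, v j + h) ω ∅ v =
      F (ω.1 * h + ∑ j, (((ω.1 * (v j : ZMod (128 * R)) + ω.2 j).val % R : ℕ) :
        ZMod (128 * R))) := by
  unfold sampleFn
  congr 1
  have h1 : ∀ t : ZMod (128 * R), ((t.val % R : ℕ) : ZMod (128 * R)) =
      t - (R : ZMod (128 * R)) * ((t.val / R : ℕ) : ZMod (128 * R)) := by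
    intro t
    have := congrArg (fun x : ℕ => (x : ZMod (128 * R))) (Nat.mod_add_div t.val R)
    simp only [Nat.cast_add, Nat.cast_mul, ZMod.natCast_zmod_val] at this
    exact eq_sub_of_add_eq this
  simp only [h1, Finset.compl_empty, Nat.cast_sum, Nat.cast_add, Finset.sum_sub_distrib,
    Finset.sum_add_distrib, Finset.mul_sum, mul_add]
  ring

theorem sum_sampleFn {s : ℕ} (R : ℕ) [NeZero (128 * R)] (F : ZMod (128 * R) → ℤ) (h : ℕ)
    (v : Fin s → ℕ) :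
    ∑ ω : ZMod (128 * R) × (Fin s → ZMod (128 * R)), (sampleFn R F (∑ j, v j + h) ω ∅ v : ℝ) =
      ∑ ρ : ZMod (128 * R), ∑ t : Fin s → ZMod (128 * R),
        (F (ρ * h + ∑ j, (((t j).val % R : ℕ) : ZMod (128 * R))) : ℝ) := by
  rw [Fintype.sum_prod_type]
  refine Finset.sum_congr rfl fun ρ _ => ?_
  simp only [sampleFn_empty]
  exact Equiv.sum_comp (Equiv.addLeft (fun j => ρ * (v j : ZMod (128 * R))))
    (fun t : Fin s → ZMod (128 * R) =>
      (F (ρ * h + ∑ j, (((t j).val % R : ℕ) : ZMod (128 * R))) : ℝ))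

theorem exists_test (s b : ℕ) :
    ∃ F : ZMod (128 * 2 ^ b) → ℤ, (∀ y, |F y| ≤ 1) ∧
      (∀ v : Fin s → ℕ, (1 - 20 / 16384 : ℝ) ^ s *
          Fintype.card (ZMod (128 * 2 ^ b) × (Fin s → ZMod (128 * 2 ^ b))) ≤
        ∑ ω : ZMod (128 * 2 ^ b) × (Fin s → ZMod (128 * 2 ^ b)),
          (sampleFn (2 ^ b) F (∑ j, v j) ω ∅ v : ℝ)) ∧
      (∀ (v : Fin s → ℕ) (n : ℕ), ∑ j, v j < n → n ≤ 2 ^ b →
        ∑ ω : ZMod (128 * 2 ^ b) × (Fin s → ZMod (128 * 2 ^ b)),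
          (sampleFn (2 ^ b) F n ω ∅ v : ℝ) = 0) := by
  obtain ⟨F, hF1, hF2, hF3⟩ := exists_bias _ (half_add_half (2 ^ b)) ZMod.stdAddChar
    (char_half (2 ^ b)) (fun t : Fin s → ZMod (128 * 2 ^ b) =>
      ∑ j, (((t j).val % 2 ^ b : ℕ) : ZMod (128 * 2 ^ b)))
  refine ⟨F, hF1, fun v => ?_, fun v n hv hn => ?_⟩
  · have h1 := sum_sampleFn (2 ^ b) F 0 v
    rw [add_zero] at h1
    rw [h1]
    simp only [Nat.cast_zero, mul_zero, zero_add]
    rw [Finset.sum_const, Finset.card_univ, nsmul_eq_mul, Fintype.card_prod, Nat.cast_mul,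
      mul_left_comm]
    apply mul_le_mul_of_nonneg_left _ (Nat.cast_nonneg _)
    refine le_trans ?_ hF3
    have h2 : ∀ t : Fin s → ZMod (128 * 2 ^ b),
        ZMod.stdAddChar (∑ j, (((t j).val % 2 ^ b : ℕ) : ZMod (128 * 2 ^ b))) =
          ∏ j, ZMod.stdAddChar ((((t j).val % 2 ^ b : ℕ) : ZMod (128 * 2 ^ b))) := by
      intro t
      induction (univ : Finset (Fin s)) using Finset.induction_on with
      | empty => simp
      | insert a u ha ih => rw [Finset.sum_insert ha, Finset.prod_insert ha,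
          AddChar.map_add_eq_mul, ih]
    simp only [h2]
    rw [← Fintype.sum_pow (fun x : ZMod (128 * 2 ^ b) =>
      ZMod.stdAddChar (((x.val % 2 ^ b : ℕ) : ZMod (128 * 2 ^ b)))), norm_pow,
      Fintype.card_fun, ZMod.card, Fintype.card_fin, Nat.cast_pow, ← mul_pow]
    exact pow_le_pow_left₀ (by positivity) (char_sum_ge (2 ^ b)) s
  · obtain ⟨h, rfl⟩ := Nat.exists_eq_add_of_le hv.le
    rw [sum_sampleFn]
    obtain ⟨ρ₀, hρ₀⟩ := exists_shift (b := b) (h := h) (by omega) (by omega)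
    set H : ZMod (128 * 2 ^ b) → ℝ := fun ρ => ∑ t : Fin s → ZMod (128 * 2 ^ b),
        (F (ρ * h + ∑ j, (((t j).val % 2 ^ b : ℕ) : ZMod (128 * 2 ^ b))) : ℝ) with hH
    have h1 : ∀ ρ, H (ρ + ρ₀) = -H ρ := by
      intro ρ
      simp only [hH]
      rw [← Finset.sum_neg_distrib]
      refine Finset.sum_congr rfl fun t _ => ?_
      rw [add_mul, hρ₀, add_right_comm, hF2]
      push_cast; ring
    have h2 : ∑ ρ, H (ρ + ρ₀) = ∑ ρ, H ρ := Equiv.sum_comp (Equiv.addRight ρ₀) H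
    simp only [h1, Finset.sum_neg_distrib] at h2
    linarith

end Pool.Agent.P.MP_838999_co
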