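import Pool.Agent.P.MP_838999_co.Many

namespace Pool.Agent.P.MP_838999_co

open Finset Combinatorics

theorem many_colours_core (a b n T : ℕ) (ha : 1 ≤ a) (hn : n ≤ 2 ^ b) (hT1 : 2 * T < 2 ^ a)
    (hT2 : ((n : ℝ) + 1) ^ (128 * a) *
      Real.exp (-(T * ((1 - 20 / 16384 : ℝ) ^ (128 * a) / 2) ^ 2 / 16)) < 1) :
    ∃ W : (Fin n → Fin (128 * a)) → (Fin (128 * a) → ZMod (2 ^ a)),
      ∀ l : Line (Fin (128 * a)) (Fin n), ¬ l.IsMono W := by
  classical
  obtain ⟨F, hF1, hF2, hF3⟩ := exists_test (128 * a) b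
  set δ : ℝ := (1 - 20 / 16384 : ℝ) ^ (128 * a) with hδ
  have hδ0 : 0 < δ := by positivity
  have hδ1 : δ ≤ 1 := pow_le_one₀ (by norm_num) (by norm_num)
  let S : Finset (Fin (128 * a) → ℕ) :=
    (Fintype.piFinset fun _ => range (n + 1)).filter fun v => ∑ j, v j ≤ n
  have hS : ∀ v : Fin (128 * a) → ℕ, ∑ j, v j ≤ n → v ∈ S := by
    intro v hv
    simp only [S, mem_filter, Fintype.mem_piFinset, mem_range]
    refine ⟨fun j => Nat.lt_succ_of_le (le_trans ?_ hv), hv⟩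
    exact Finset.single_le_sum (f := v) (fun _ _ => Nat.zero_le _) (mem_univ j)
  have hScard : (S.card : ℝ) ≤ ((n : ℝ) + 1) ^ (128 * a) := by
    have h1 : S.card ≤ (n + 1) ^ (128 * a) := by
      refine (Finset.card_filter_le _ _).trans ?_
      simp [Fintype.card_piFinset]
    exact_mod_cast h1
  have hX : ∀ ω J v, |(sampleFn (s := 128 * a) (2 ^ b) F n ω J v : ℝ)| ≤ 1 := by
    intro ω J v
    have := hF1 (ω.1 * n + ∑ j, ω.2 j - ((2 ^ b : ℕ) : ZMod (128 * 2 ^ b)) *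
      ((∑ j ∈ Jᶜ, (ω.1 * (v j : ZMod (128 * 2 ^ b)) + ω.2 j).val / 2 ^ b : ℕ) :
      ZMod (128 * 2 ^ b)))
    unfold sampleFn
    exact_mod_cast this
  obtain ⟨ω, hω⟩ := sampling S
    (fun v (ω : ZMod (128 * 2 ^ b) × (Fin (128 * a) → ZMod (128 * 2 ^ b))) =>
      if ∑ j, v j = n then δ / 2 - (sampleFn (2 ^ b) F n ω ∅ v : ℝ)
      else (sampleFn (2 ^ b) F n ω ∅ v : ℝ) - δ / 2) (δ / 2) (by linarith) (by linarith)
    (by
      intro v _ ω
      have := abs_le.1 (hX ω ∅ v)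
      split_ifs <;> rw [abs_le] <;> constructor <;> linarith [this.1, this.2])
    (by
      intro v hv
      have hv' : ∑ j, v j ≤ n := (Finset.mem_filter.1 hv).2
      by_cases h : ∑ j, v j = n
      · simp only [h, if_true, Finset.sum_sub_distrib, Finset.sum_const, Finset.card_univ,
          nsmul_eq_mul]
        have := hF2 v
        rw [h] at this
        linarith
      · simp only [h, if_false, Finset.sum_sub_distrib, Finset.sum_const, Finset.card_univ,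
          nsmul_eq_mul]
        rw [hF3 v n (lt_of_le_of_ne hv' h) hn]
        linarith) T
    (lt_of_le_of_lt (mul_le_mul_of_nonneg_right hScard (Real.exp_pos _).le) hT2)
  refine colouring_of_cylinders (by omega) (2 ^ a)
    (fun J v => ∑ i, (-1) ^ J.card * sampleFn (2 ^ b) F n (ω i) J v) ?_ ?_ ?_
  · intro J v v' hvv
    refine Finset.sum_congr rfl fun i _ => ?_
    unfold sampleFn
    congr 5
    refine Finset.sum_congr rfl fun j hj => ?_
    rw [hvv j (Finset.mem_compl.1 hj)]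
  · intro v
    rw [Finset.sum_comm]
    apply Finset.dvd_sum
    intro i _
    have := cylinder_identity (ι := Fin (128 * a)) 7 a (by norm_num)
      (fun x => F ((ω i).1 * n + ∑ j, (ω i).2 j -
        ((2 ^ b : ℕ) : ZMod (128 * 2 ^ b)) * (x : ZMod (128 * 2 ^ b))))
      (by
        intro x
        have h0 : ((2 ^ b : ℕ) : ZMod (128 * 2 ^ b)) * ((2 ^ 7 : ℕ) : ZMod (128 * 2 ^ b)) = 0 := by
          rw [← Nat.cast_mul, show 2 ^ b * 2 ^ 7 = 128 * 2 ^ b by ring, ZMod.natCast_self]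
        rw [Nat.cast_add, mul_add, h0, add_zero])
      (fun j => ((ω i).1 * (v j : ZMod (128 * 2 ^ b)) + (ω i).2 j).val / 2 ^ b) (by simp)
    push_cast
    exact this
  · intro v v' hv hv' hdvd
    have h1 := hω v (hS v hv.le)
    have h2 := hω v' (hS v' hv'.le)
    simp only [hv, if_true, Finset.sum_sub_distrib] at h1
    simp only [hv'.ne, if_false, Finset.sum_sub_distrib] at h2
    simp only [Finset.card_empty, pow_zero, one_mul] at hdvd
    have h3 : ∑ i, (sampleFn (2 ^ b) F n (ω i) ∅ v : ℝ) ≤ T := by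
      calc _ ≤ ∑ _i : Fin T, (1 : ℝ) := Finset.sum_le_sum fun i _ => (abs_le.1 (hX _ _ _)).2
        _ = T := by simp
    have h4 : -(T : ℝ) ≤ ∑ i, (sampleFn (2 ^ b) F n (ω i) ∅ v' : ℝ) := by
      calc -(T : ℝ) = ∑ _i : Fin T, (-1 : ℝ) := by simp
        _ ≤ _ := Finset.sum_le_sum fun i _ => (abs_le.1 (hX _ _ _)).1
    have h5 : (0 : ℤ) < ∑ i, sampleFn (2 ^ b) F n (ω i) ∅ v -
        ∑ i, sampleFn (2 ^ b) F n (ω i) ∅ v' := by
      have : (0 : ℝ) < ∑ i, (sampleFn (2 ^ b) F n (ω i) ∅ v : ℝ) -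
        ∑ i, (sampleFn (2 ^ b) F n (ω i) ∅ v' : ℝ) := by linarith
      exact_mod_cast this
    have h6 := Int.le_of_dvd h5 hdvd
    have h7 : ((2 ^ a : ℕ) : ℝ) ≤ ∑ i, (sampleFn (2 ^ b) F n (ω i) ∅ v : ℝ) -
        ∑ i, (sampleFn (2 ^ b) F n (ω i) ∅ v' : ℝ) := by exact_mod_cast h6
    have h8 : ((2 * T : ℕ) : ℝ) < ((2 ^ a : ℕ) : ℝ) := by exact_mod_cast hT1
    push_cast at h7 h8
    linarith

theorem growth_aux {y : ℕ} (hy : 30 ≤ y) : (2 : ℝ) ^ 17 * y < (7 / 4 : ℝ) ^ y := by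
  induction y, hy using Nat.le_induction with
  | base => norm_num
  | succ y hy ih =>
    have : (30 : ℝ) ≤ y := by exact_mod_cast hy
    push_cast
    rw [pow_succ (7 / 4 : ℝ)]
    nlinarith

/-- With `512 y` letters and `2^(2048 y^2)` colours the cube of dimension `2^(2^y)` has a
colouring without monochromatic combinatorial line. -/
theorem many_colours {y : ℕ} (hy : 30 ≤ y) :
    ∃ W : (Fin (2 ^ 2 ^ y) → Fin (128 * (4 * y))) → (Fin (128 * (4 * y)) → ZMod (2 ^ (4 * y))),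
      ∀ l : Line (Fin (128 * (4 * y))) (Fin (2 ^ 2 ^ y)), ¬ l.IsMono W := by
  obtain ⟨z, hz⟩ : ∃ z, 4 * y = z + 2 := ⟨4 * y - 2, by omega⟩
  refine many_colours_core (4 * y) (2 ^ y) (2 ^ 2 ^ y) (2 ^ z) (by omega) le_rfl ?_ ?_
  · rw [hz, pow_add]
    have : 0 < 2 ^ z := by positivity
    omega
  · have hy' : (30 : ℝ) ≤ y := by exact_mod_cast hy
    have h1 : (((2 ^ 2 ^ y : ℕ) : ℝ) + 1) ≤ Real.exp ((2 ^ y : ℕ) : ℝ) := by
      have e1 : Real.exp ((2 ^ y : ℕ) : ℝ) = Real.exp 1 ^ (2 ^ y) := by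
        rw [← Real.exp_nat_mul, mul_one]
      have e2 : (5 / 2 : ℝ) ≤ Real.exp 1 := by linarith [Real.exp_one_gt_d9]
      have e3 : ∀ m : ℕ, 2 ≤ m → (2 : ℝ) ^ m + 1 ≤ (5 / 2) ^ m := by
        intro m hm
        induction m, hm using Nat.le_induction with
        | base => norm_num
        | succ m hm ih =>
          rw [pow_succ, pow_succ]
          have : (0 : ℝ) < 2 ^ m := by positivity
          nlinarith
      have e4 : 2 ≤ 2 ^ y := by
        calc 2 = 2 ^ 1 := by norm_num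
          _ ≤ 2 ^ y := Nat.pow_le_pow_right (by norm_num) (by omega)
      rw [e1]
      push_cast
      exact (e3 _ e4).trans (pow_le_pow_left₀ (by norm_num) e2 _)
    have h2 : (((2 ^ 2 ^ y : ℕ) : ℝ) + 1) ^ (128 * (4 * y)) ≤
        Real.exp (((128 * (4 * y) : ℕ) : ℝ) * ((2 ^ y : ℕ) : ℝ)) := by
      rw [Real.exp_nat_mul]
      exact pow_le_pow_left₀ (by positivity) h1 _
    refine lt_of_le_of_lt (mul_le_mul_of_nonneg_right h2 (Real.exp_pos _).le) ?_
    rw [← Real.exp_add, Real.exp_lt_one_iff]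
    have h3 : (11 / 16 : ℝ) ≤ (1 - 20 / 16384 : ℝ) ^ 256 := by
      have := one_add_mul_le_pow (a := (-(20 / 16384) : ℝ)) (by norm_num) 256
      have e : (1 : ℝ) + -(20 / 16384) = 1 - 20 / 16384 := by ring
      rw [e] at this
      refine le_trans ?_ this
      norm_num
    have h4 : (11 / 16 : ℝ) ^ (4 * y) ≤ ((1 - 20 / 16384 : ℝ) ^ (128 * (4 * y))) ^ 2 := by
      rw [← pow_mul, show 128 * (4 * y) * 2 = 256 * (4 * y) by ring, pow_mul _ 256]
      exact pow_le_pow_left₀ (by norm_num) h3 _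
    have h5 : ((2 ^ z : ℕ) : ℝ) = 2 ^ (4 * y) / 4 := by
      rw [hz, pow_add]; push_cast; ring
    have h6 : (2 : ℝ) ^ y * (7 / 4) ^ y ≤ 2 ^ (4 * y) * (11 / 16) ^ (4 * y) := by
      rw [← mul_pow, ← mul_pow, pow_mul]
      exact pow_le_pow_left₀ (by norm_num) (by norm_num) _
    have h7 := growth_aux hy
    have h8 : (0 : ℝ) < 2 ^ y := by positivity
    have h9 : (2 : ℝ) ^ y * (2 ^ 17 * y) < 2 ^ y * (7 / 4) ^ y := mul_lt_mul_of_pos_left h7 h8
    have h10 : (2 : ℝ) ^ (4 * y) * (11 / 16) ^ (4 * y) ≤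
        2 ^ (4 * y) * ((1 - 20 / 16384 : ℝ) ^ (128 * (4 * y))) ^ 2 :=
      mul_le_mul_of_nonneg_left h4 (by positivity)
    rw [h5, div_pow]
    push_cast
    generalize ((1 - 20 / 16384 : ℝ) ^ (128 * (4 * y))) ^ 2 = A at *
    generalize (2 : ℝ) ^ (4 * y) = B at *
    nlinarith

end Pool.Agent.P.MP_838999_co
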