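import Pool.Agent.P.MP_838999_co.Geo

namespace Pool.Agent.P.MP_838999_co

open Finset Combinatorics

theorem one_add_exp_le {x : ℝ} (h0 : 0 ≤ x) (h2 : x ≤ 2) :
    Real.exp x + 1 ≤ 2 * Real.exp (3 * x / 4) := by
  have h1 := Real.cosh_le_exp_half_sq (x / 2)
  rw [Real.cosh_eq] at h1
  have e1 : Real.exp x = Real.exp (x / 2) * Real.exp (x / 2) := by
    rw [← Real.exp_add]; ring_nf
  have e2 : (1 : ℝ) = Real.exp (x / 2) * Real.exp (-(x / 2)) := by
    rw [← Real.exp_add]; simp
  have e3 : Real.exp (x / 2) * Real.exp ((x / 2) ^ 2 / 2) ≤ Real.exp (3 * x / 4) := by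
    rw [← Real.exp_add]
    apply Real.exp_le_exp.2
    nlinarith
  have hp := Real.exp_pos (x / 2)
  calc Real.exp x + 1 = Real.exp (x / 2) * (Real.exp (x / 2) + Real.exp (-(x / 2))) := by
        rw [mul_add, ← e1, ← e2]
    _ ≤ Real.exp (x / 2) * (2 * Real.exp ((x / 2) ^ 2 / 2)) := by
        apply mul_le_mul_of_nonneg_left _ hp.le
        linarith
    _ ≤ 2 * Real.exp (3 * x / 4) := by linarith

theorem first_moment {U Y : Type} [Fintype U] [Fintype Y] [DecidableEq Y] [Nonempty U]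
    (m : U → Y) (K : ℕ) (η : ℝ)
    (hη : ∀ y, (∑ u, if m u = y then (1 : ℝ) else 0) ≤ η * Fintype.card U)
    (hK : K * η ≤ 2) (γ : Bool) :
    ∑ F : Y → Bool, (∑ u, if F (m u) = γ then (1 : ℝ) else 0) ^ K ≤
      (Fintype.card U : ℝ) ^ K * 2 ^ Fintype.card Y * Real.exp (-(K : ℝ) / 4) := by
  set N : ℝ := (Fintype.card U : ℝ) with hN
  have hNpos : 0 < N := by
    rw [hN]; exact_mod_cast Fintype.card_pos
  set μ : Y → ℝ := fun y => (∑ u, if m u = y then (1 : ℝ) else 0) / N with hμ
  have hμ0 : ∀ y, 0 ≤ μ y := fun y =>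
    div_nonneg (Finset.sum_nonneg fun u _ => by split_ifs <;> norm_num) hNpos.le
  have hμη : ∀ y, μ y ≤ η := fun y => by
    rw [hμ]; exact (div_le_iff₀ hNpos).2 (hη y)
  have hμ1 : ∑ y, μ y = 1 := by
    simp only [hμ]
    rw [← Finset.sum_div, Finset.sum_comm]
    simp [hN]
  have hZ : ∀ F : Y → Bool, (∑ u, if F (m u) = γ then (1 : ℝ) else 0) =
      N * ∑ y, if F y = γ then μ y else 0 := by
    intro F
    rw [Finset.mul_sum]
    have : ∀ y, N * (if F y = γ then μ y else 0) =
        ∑ u, if m u = y then (if F y = γ then (1 : ℝ) else 0) else 0 := by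
      intro y
      by_cases h : F y = γ
      · simp only [h, if_true, hμ]
        field_simp
      · simp [h]
    simp only [this]
    rw [Finset.sum_comm]
    simp
  have hstep : ∀ F : Y → Bool, (∑ u, if F (m u) = γ then (1 : ℝ) else 0) ^ K ≤
      N ^ K * Real.exp (-(K : ℝ)) *
        ∏ y, Real.exp (if F y = γ then (K : ℝ) * μ y else 0) := by
    intro F
    rw [hZ, mul_pow, mul_assoc]
    apply mul_le_mul_of_nonneg_left _ (pow_nonneg hNpos.le _)
    set Z := ∑ y, if F y = γ then μ y else 0 with hZdef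
    have hZ0 : 0 ≤ Z := Finset.sum_nonneg fun y _ => by
      split_ifs
      · exact hμ0 y
      · exact le_rfl
    have h1 : Z ≤ Real.exp (Z - 1) := by
      have := Real.add_one_le_exp (Z - 1); linarith
    calc Z ^ K ≤ Real.exp (Z - 1) ^ K := pow_le_pow_left₀ hZ0 h1 K
      _ = _ := by
        rw [← Real.exp_nat_mul, ← Real.exp_sum, ← Real.exp_add]
        congr 1
        have : ∑ y, (if F y = γ then (K : ℝ) * μ y else 0) = K * Z := by
          rw [hZdef, Finset.mul_sum]
          exact Finset.sum_congr rfl fun y _ => by split_ifs <;> simp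
        rw [this]; ring
  calc _ ≤ ∑ F : Y → Bool, N ^ K * Real.exp (-(K : ℝ)) *
        ∏ y, Real.exp (if F y = γ then (K : ℝ) * μ y else 0) :=
        Finset.sum_le_sum fun F _ => hstep F
    _ = N ^ K * Real.exp (-(K : ℝ)) *
        ∏ y, ∑ b : Bool, Real.exp (if b = γ then (K : ℝ) * μ y else 0) := by
        rw [← Finset.mul_sum, Fintype.prod_sum]
    _ ≤ N ^ K * Real.exp (-(K : ℝ)) * ∏ y, (2 * Real.exp (3 * ((K : ℝ) * μ y) / 4)) := by
        apply mul_le_mul_of_nonneg_left _ (by positivity)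
        apply Finset.prod_le_prod
        · intro y _
          exact Finset.sum_nonneg fun b _ => (Real.exp_pos _).le
        · intro y _
          have h0 : 0 ≤ (K : ℝ) * μ y := mul_nonneg (Nat.cast_nonneg _) (hμ0 y)
          have h2 : (K : ℝ) * μ y ≤ 2 :=
            (mul_le_mul_of_nonneg_left (hμη y) (Nat.cast_nonneg _)).trans hK
          have := one_add_exp_le h0 h2
          cases γ <;> simp <;> linarith
    _ = _ := by
        rw [Finset.prod_mul_distrib, Finset.prod_const, Finset.card_univ, ← Real.exp_sum]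
        have : ∑ y, 3 * ((K : ℝ) * μ y) / 4 = 3 * (K : ℝ) / 4 := by
          rw [← Finset.sum_div, ← Finset.mul_sum, ← Finset.mul_sum, hμ1, mul_one]
        rw [this]
        have e : Real.exp (-(K : ℝ) / 4) = Real.exp (-(K : ℝ)) * Real.exp (3 * (K : ℝ) / 4) := by
          rw [← Real.exp_add]; ring_nf
        rw [e]; ring

theorem fibre_bound {s D : ℕ} {R : Type} [DecidableEq R] (ω : Fin D → Fin s → R)
    (hω : ∀ l, ∃ a b, ω l a ≠ ω l b) (hs : 1 ≤ s) (y : Fin D → R) :
    (∑ u : Fin D → Fin s, if (fun l => ω l (u l)) = y then (1 : ℝ) else 0) ≤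
      (1 - 1 / (s : ℝ)) ^ D * Fintype.card (Fin D → Fin s) := by
  have hs0 : (0 : ℝ) < s := by exact_mod_cast hs
  have h1 : ∀ u : Fin D → Fin s, (if (fun l => ω l (u l)) = y then (1 : ℝ) else 0) =
      ∏ l, if ω l (u l) = y l then (1 : ℝ) else 0 := by
    intro u
    rw [Finset.prod_boole]
    simp [funext_iff]
  simp only [h1]
  rw [← Fintype.prod_sum (fun l a => if ω l a = y l then (1 : ℝ) else 0)]
  have h2 : (1 - 1 / (s : ℝ)) ^ D * Fintype.card (Fin D → Fin s) = ∏ _l : Fin D, ((s : ℝ) - 1) := by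
    simp only [Fintype.card_pi, Fintype.card_fin, Finset.prod_const, Finset.card_univ]
    push_cast
    rw [← mul_pow]
    congr 1
    field_simp
  rw [h2]
  apply Finset.prod_le_prod
  · intro l _
    exact Finset.sum_nonneg fun a _ => by split_ifs <;> norm_num
  · intro l _
    obtain ⟨a, ha⟩ : ∃ a, ω l a ≠ y l := by
      obtain ⟨a, b, hab⟩ := hω l
      by_cases h : ω l a = y l
      · exact ⟨b, fun hb => hab (h.trans hb.symm)⟩
      · exact ⟨a, h⟩
    rw [← Finset.add_sum_erase _ _ (mem_univ a), if_neg ha, zero_add]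
    calc _ ≤ ∑ _x ∈ univ.erase a, (1 : ℝ) :=
          Finset.sum_le_sum fun x _ => by split_ifs <;> norm_num
      _ = _ := by
          rw [Finset.sum_const, Finset.card_erase_of_mem (mem_univ a), Finset.card_univ,
            Fintype.card_fin, nsmul_eq_mul, mul_one, Nat.cast_sub hs, Nat.cast_one]

theorem exists_code {s D K : ℕ} {R : Type} [Fintype R] [DecidableEq R] (hs : 1 ≤ s)
    (h1 : K * (1 - 1 / (s : ℝ)) ^ D ≤ 2)
    (h2 : 2 * (Fintype.card R : ℝ) ^ (s * D) * Real.exp (-(K : ℝ) / 4) < 1) :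
    ∃ (T : Fin K → Fin D → Fin s) (F : (Fin D → R) → Bool),
      ∀ ω : Fin D → Fin s → R, (∀ l, ∃ a b, ω l a ≠ ω l b) →
        ∃ j j', F (fun l => ω l (T j l)) ≠ F (fun l => ω l (T j' l)) := by
  classical
  have : Nonempty (Fin s) := ⟨⟨0, by omega⟩⟩
  by_contra hcon
  push Not at hcon
  let good : Finset (Fin D → Fin s → R) := univ.filter fun ω => ∀ l, ∃ a b, ω l a ≠ ω l b
  set B : ℝ := (Fintype.card (Fin D → Fin s) : ℝ) ^ K * 2 ^ Fintype.card (Fin D → R) with hB
  have hBpos : 0 < B := by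
    have : (0 : ℝ) < Fintype.card (Fin D → Fin s) := by exact_mod_cast Fintype.card_pos
    positivity
  have hone : ∀ (F : (Fin D → R) → Bool) (T : Fin K → Fin D → Fin s), (1 : ℝ) ≤
      ∑ ω ∈ good, ∑ γ : Bool, ∏ j, if F (fun l => ω l (T j l)) = γ then (1 : ℝ) else 0 := by
    intro F T
    obtain ⟨ω, hω, hc⟩ := hcon T F
    obtain ⟨γ, hγ⟩ : ∃ γ, ∀ j, F (fun l => ω l (T j l)) = γ := by
      rcases isEmpty_or_nonempty (Fin K) with h | ⟨⟨j₀⟩⟩
      · exact ⟨true, fun j => h.elim j⟩
      · exact ⟨_, fun j => hc j j₀⟩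
    have hnn : ∀ (ω : Fin D → Fin s → R) (γ : Bool),
        0 ≤ ∏ j, if F (fun l => ω l (T j l)) = γ then (1 : ℝ) else 0 := fun ω γ =>
      Finset.prod_nonneg fun j _ => by split_ifs <;> norm_num
    calc (1 : ℝ) = ∏ j, if F (fun l => ω l (T j l)) = γ then (1 : ℝ) else 0 := by simp [hγ]
      _ ≤ ∑ γ : Bool, ∏ j, if F (fun l => ω l (T j l)) = γ then (1 : ℝ) else 0 :=
          Finset.single_le_sum (f := fun γ : Bool =>
            ∏ j, if F (fun l => ω l (T j l)) = γ then (1 : ℝ) else 0)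
            (fun γ _ => hnn ω γ) (mem_univ γ)
      _ ≤ _ := Finset.single_le_sum (f := fun ω : Fin D → Fin s → R => ∑ γ : Bool,
            ∏ j, if F (fun l => ω l (T j l)) = γ then (1 : ℝ) else 0)
            (fun ω _ => Finset.sum_nonneg fun γ _ => hnn ω γ) (by simpa [good] using hω)
  have htot : B ≤ ∑ ω ∈ good, ∑ γ : Bool, ∑ F : (Fin D → R) → Bool,
      (∑ u : Fin D → Fin s, if F (fun l => ω l (u l)) = γ then (1 : ℝ) else 0) ^ K := by
    calc B = ∑ _F : (Fin D → R) → Bool, ∑ _T : Fin K → Fin D → Fin s, (1 : ℝ) := by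
          simp only [Finset.sum_const, Finset.card_univ, nsmul_eq_mul, mul_one, hB,
            Fintype.card_fun (α := Fin K), Fintype.card_fun (β := Bool), Fintype.card_fin,
            Fintype.card_bool]
          push_cast
          ring
      _ ≤ ∑ F : (Fin D → R) → Bool, ∑ T : Fin K → Fin D → Fin s, ∑ ω ∈ good, ∑ γ : Bool,
            ∏ j, if F (fun l => ω l (T j l)) = γ then (1 : ℝ) else 0 :=
          Finset.sum_le_sum fun F _ => Finset.sum_le_sum fun T _ => hone F T
      _ = ∑ F : (Fin D → R) → Bool, ∑ ω ∈ good, ∑ γ : Bool, ∑ T : Fin K → Fin D → Fin s,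
            ∏ j, if F (fun l => ω l (T j l)) = γ then (1 : ℝ) else 0 := by
          refine Finset.sum_congr rfl fun F _ => ?_
          rw [Finset.sum_comm]
          exact Finset.sum_congr rfl fun ω _ => Finset.sum_comm
      _ = _ := by
          rw [Finset.sum_comm]
          refine Finset.sum_congr rfl fun ω _ => ?_
          rw [Finset.sum_comm]
          refine Finset.sum_congr rfl fun γ _ => Finset.sum_congr rfl fun F _ => ?_
          rw [Fintype.sum_pow]
  have hup : ∑ ω ∈ good, ∑ γ : Bool, ∑ F : (Fin D → R) → Bool,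
      (∑ u : Fin D → Fin s, if F (fun l => ω l (u l)) = γ then (1 : ℝ) else 0) ^ K ≤
      ∑ _ω : Fin D → Fin s → R, ∑ _γ : Bool, B * Real.exp (-(K : ℝ) / 4) := by
    calc _ ≤ ∑ _ω ∈ good, ∑ _γ : Bool, B * Real.exp (-(K : ℝ) / 4) := by
          refine Finset.sum_le_sum fun ω hω => Finset.sum_le_sum fun γ _ => ?_
          have hω' : ∀ l, ∃ a b, ω l a ≠ ω l b := by simpa [good] using hω
          exact first_moment (fun (u : Fin D → Fin s) l => ω l (u l)) K _
            (fun y => by convert fibre_bound ω hω' hs y) h1 γ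
      _ ≤ _ := Finset.sum_le_sum_of_subset_of_nonneg (Finset.subset_univ _)
          fun _ _ _ => Finset.sum_nonneg fun _ _ => by positivity
  have hval : ∑ _ω : Fin D → Fin s → R, ∑ _γ : Bool, B * Real.exp (-(K : ℝ) / 4) =
      B * (2 * (Fintype.card R : ℝ) ^ (s * D) * Real.exp (-(K : ℝ) / 4)) := by
    simp only [Finset.sum_const, Finset.card_univ, nsmul_eq_mul, Fintype.card_bool,
      Fintype.card_fun, Fintype.card_fin]
    push_cast
    rw [pow_mul]
    ring
  have := mul_lt_mul_of_pos_left h2 hBpos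
  linarith

end Pool.Agent.P.MP_838999_co
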